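import Pool.Agent.Helper45.FG.St

/-!
Module NRM of project FG (owner helper45): the norm bound.
-/

set_option autoImplicit false

namespace Pool.Agent.Helper55.FG

open Pool.Agent.Helper45.FG
open scoped BigOperators

/-- The absolute value of the product of the conjugates of a nonzero algebraic integer is at least one. -/
private lemma one_le_prod_abs (K : IntermediateField ℚ ℝ) [FiniteDimensional ℚ K] [IsGalois ℚ K]
    (y : K) (hy : IsIntegral ℤ y) (hy0 : y ≠ 0) :
    1 ≤ ∏ t : K ≃ₐ[ℚ] K, |((t y : K) : ℝ)| := by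
  have hint : IsIntegral ℤ (Algebra.norm ℚ y) := Algebra.isIntegral_norm ℚ hy
  obtain ⟨m, hm⟩ := IsIntegrallyClosed.isIntegral_iff.mp hint
  have hN0 : Algebra.norm ℚ y ≠ 0 := (Algebra.norm_ne_zero_iff).mpr hy0
  have hm0 : m ≠ 0 := by
    rintro rfl
    apply hN0
    rw [← hm]
    simp
  have hm1 : (1 : ℝ) ≤ |(m : ℝ)| := by
    have := Int.one_le_abs hm0
    exact_mod_cast this
  have hprod := Algebra.norm_eq_prod_automorphisms ℚ y
  have hcast : ((algebraMap ℚ K (Algebra.norm ℚ y) : K) : ℝ) = (m : ℝ) := by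
    rw [← hm]
    simp
  have hcast2 : ((∏ t : K ≃ₐ[ℚ] K, t y : K) : ℝ) = ∏ t : K ≃ₐ[ℚ] K, ((t y : K) : ℝ) := by
    exact map_prod (algebraMap K ℝ) (fun t : K ≃ₐ[ℚ] K => t y) Finset.univ
  rw [← Finset.abs_prod, ← hcast2, ← hprod, hcast]
  exact hm1

theorem hNRM : StNRM := by
  intro K hfd hgal x t0 g hx habs hgap hmov
  have _ := hfd
  have _ := hgal
  obtain ⟨s, hs⟩ := hmov
  classical
  have hy : IsIntegral ℤ (x - s x) := hx.sub (hx.map s)
  have hy0 : x - s x ≠ 0 := fun h => hs (sub_eq_zero.mp h).symm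
  have h1 := one_le_prod_abs K (x - s x) hy hy0
  have hval : ∀ t : K ≃ₐ[ℚ] K, ((t (x - s x) : K) : ℝ) = ((t x : K) : ℝ) - (((t * s) x : K) : ℝ) := by
    intro t
    rw [map_sub, AlgEquiv.mul_apply]
    rfl
  have hs1 : s ≠ 1 := by
    rintro rfl
    exact hs rfl
  have hne : t0 ≠ t0 * s⁻¹ := by
    intro h
    apply hs1
    have h2 : s⁻¹ = 1 := by
      have := h.symm
      exact mul_eq_left.mp this
    exact inv_eq_one.mp h2
  set E : Finset (K ≃ₐ[ℚ] K) := {t0, t0 * s⁻¹} with hE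
  have hEc : E.card = 2 := Finset.card_pair hne
  have hn : Fintype.card (K ≃ₐ[ℚ] K) = Module.finrank ℚ K := by
    rw [← Nat.card_eq_fintype_card]
    exact IsGalois.card_aut_eq_finrank ℚ K
  have hbig : ∀ t : K ≃ₐ[ℚ] K, |((t (x - s x) : K) : ℝ)| ≤ 2 * (x : ℝ) := by
    intro t
    rw [hval t]
    have ha := abs_le.mp (habs t)
    have hb := abs_le.mp (habs (t * s))
    rw [abs_le]
    constructor <;> linarith
  have hsmall : ∀ t : K ≃ₐ[ℚ] K, t ∉ E → |((t (x - s x) : K) : ℝ)| ≤ g := by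
    intro t ht
    have ht1 : t ≠ t0 := by
      rintro rfl
      exact ht (by simp [hE])
    have ht2 : t * s ≠ t0 := by
      intro h
      apply ht
      have : t = t0 * s⁻¹ := by rw [← h]; group
      rw [hE, this]
      simp
    rw [hval t]
    have ha := abs_le.mp (habs t)
    have hb := abs_le.mp (habs (t * s))
    have hc := hgap t ht1
    have hd := hgap (t * s) ht2
    rw [abs_le]
    constructor <;> linarith
  have hsplit := Finset.prod_sdiff (f := fun t : K ≃ₐ[ℚ] K => |((t (x - s x) : K) : ℝ)|)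
    (Finset.subset_univ E)
  have hA : ∏ t ∈ (Finset.univ \ E : Finset (K ≃ₐ[ℚ] K)), |((t (x - s x) : K) : ℝ)|
      ≤ g ^ (Module.finrank ℚ K - 2) := by
    have hcard : (Finset.univ \ E : Finset (K ≃ₐ[ℚ] K)).card = Module.finrank ℚ K - 2 := by
      rw [Finset.card_sdiff_of_subset (Finset.subset_univ E), hEc, Finset.card_univ, hn]
    rw [← hcard, ← Finset.prod_const]
    apply Finset.prod_le_prod
    · intro t _
      exact abs_nonneg _
    · intro t ht
      exact hsmall t (Finset.mem_sdiff.mp ht).2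
  have hB : ∏ t ∈ E, |((t (x - s x) : K) : ℝ)| ≤ (2 * (x : ℝ)) ^ 2 := by
    rw [hE, Finset.prod_pair hne, sq]
    exact mul_le_mul (hbig _) (hbig _) (abs_nonneg _) ((abs_nonneg _).trans (hbig t0))
  rw [← hsplit] at h1
  refine h1.trans ?_
  have hB0 : 0 ≤ ∏ t ∈ E, |((t (x - s x) : K) : ℝ)| := Finset.prod_nonneg fun _ _ => abs_nonneg _
  have hA0 : 0 ≤ ∏ t ∈ (Finset.univ \ E : Finset (K ≃ₐ[ℚ] K)), |((t (x - s x) : K) : ℝ)| :=
    Finset.prod_nonneg fun _ _ => abs_nonneg _
  exact mul_le_mul hA hB hB0 (hA0.trans hA)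

end Pool.Agent.Helper55.FG
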